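import Mathlib
import Pool.Agent.X90.DG.Main4

/-!
# MP_cbe134_nt: the relations of bounded depth between the values with one large argument

Fix `W` and `ρ` and consider the multiple zeta values of large weight `k` and depth at most `ρ + 1` with an argument at
least `k - W`. The relations between them with integer coefficients of absolute value at most `C ^ k` span a space; we call
the number of the indices minus its dimension the rank of the family (at height `C ^ k`).

Theorem.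
(1) For almost all `k` (all but a bounded number of the `k ∈ [N, κ N]`, for all large `N`) the rank is
`∑ comp(m, i) dim Fil_{ρ - i}(Z_n)`, the sum over `n + m ≤ W` and `i ≤ ρ`, where `comp(m, i)` is the number of indices (not
necessarily admissible) of weight `m` and depth `i`. In other words, all relations of bounded height come from the
relations of weight `n ≤ W` and depth `≤ ρ - i`, multiplied by the values `ζ(k - n - m, r)`, `r` of weight `m` and depth `i`.
(2) Let `B(n, l)` be any numbers. `dim Fil_l(Z_n) = B(n, l)` for all `n ≤ W` and all `l` if and only if for all `V ≤ W`, all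
`ρ` and almost all `k` the rank is `∑ comp(m, i) B(n, ρ - i)`.
(3) The Broadhurst-Kreimer conjecture (Q1) holds if and only if for all `W`, `ρ` and almost all `k` the rank is
`∑ comp(m, i) ∑_{j ≤ ρ - i} b(n, j)`, where `b(n, j)` is the coefficient of `X ^ n Y ^ j` in
`(1 + E(X) Y) / (1 - O(X) Y + S(X) Y ^ 2 - S(X) Y ^ 4)`.

Proof (`Pool/Agent/X90/DG`): a word with a fixed part `q` in front of the large letter is expanded with the stuffle product
into `∑ ± ζ(p) ζ(v)` with initial segments `p` of `q` and words `v` that begin with the large letter, the sum of the depths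
does not increase; the expansion is a bijection on the coefficients of the words of depth at most `ρ + 1`, and a relation
of bounded height splits for almost all `k` into relations `∑ c_p ζ(p) = 0`, one for each `v`.
-/

set_option autoImplicit false

namespace Pool.Agent.Results.MP_cbe134_nt.DepthCount

/-- `trunc [s_1, ..., s_r] m` is the sum of `∏ n_i ^ (-s_i)` over `m > n_1 > ... > n_r ≥ 1` -/
noncomputable def trunc : List ℕ → ℕ → ℝ
  | [], _ => 1
  | s :: l, m => ∑ j ∈ Finset.Ico 1 m, trunc l j / (j : ℝ) ^ s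

/-- the multiple zeta value `ζ(s_1, ..., s_r)`, the sum of `∏ n_i ^ (-s_i)` over
`n_1 > ... > n_r ≥ 1`; `ζ() = 1` -/
noncomputable def mzv : List ℕ → ℝ
  | [] => 1
  | s :: l => ∑' m : ℕ, trunc l (m + 1) / ((m + 1 : ℕ) : ℝ) ^ s

/-- admissible indices: the empty index and `(s_1, ..., s_r)` with `s_1 ≥ 2` and all `s_i ≥ 1` -/
def Admissible : List ℕ → Prop
  | [] => True
  | s :: l => 2 ≤ s ∧ ∀ t ∈ l, 1 ≤ t

/-- `Fil_r(Z_k)`: the `ℚ`-span of the multiple zeta values of weight `k` and depth at most `r` -/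
noncomputable def Fil (r k : ℕ) : Submodule ℚ ℝ :=
  Submodule.span ℚ (mzv '' {p | (Admissible p ∧ p.sum = k) ∧ p.length ≤ r})

/-- the dimension of `gr_r(Z_k)`, `dim Fil_r(Z_k) - dim Fil_{r-1}(Z_k)` -/
noncomputable def grDim (k : ℕ) : ℕ → ℤ
  | 0 => Module.finrank ℚ (Fil 0 k)
  | r + 1 => (Module.finrank ℚ (Fil (r + 1) k) : ℤ) - Module.finrank ℚ (Fil r k)

open PowerSeries in
/-- `E(X) = X ^ 2 / (1 - X ^ 2)` -/
noncomputable def E : PowerSeries ℤ := X ^ 2 * invOfUnit (1 - X ^ 2) 1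

open PowerSeries in
/-- `O(X) = X ^ 3 / (1 - X ^ 2)` -/
noncomputable def O : PowerSeries ℤ := X ^ 3 * invOfUnit (1 - X ^ 2) 1

open PowerSeries in
/-- `S(X) = X ^ 12 / ((1 - X ^ 4) (1 - X ^ 6))` -/
noncomputable def S : PowerSeries ℤ := X ^ 12 * invOfUnit ((1 - X ^ 4) * (1 - X ^ 6)) 1

open PowerSeries in
/-- `(1 + E(X) Y) / (1 - O(X) Y + S(X) Y ^ 2 - S(X) Y ^ 4)`, a power series in `Y` whose coefficients
are power series in `X` -/
noncomputable def bkSeries : PowerSeries (PowerSeries ℤ) :=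
  (1 + C E * X) * invOfUnit (1 - C O * X + C S * X ^ 2 - C S * X ^ 4) 1

/-- the Broadhurst-Kreimer conjecture -/
def BroadhurstKreimer : Prop :=
  ∀ k r : ℕ, grDim k r = PowerSeries.coeff k (PowerSeries.coeff r bkSeries)

/-- the number of the indices (positive integers) of weight `m` and depth `i` -/
def comp : ℕ → ℕ → ℕ
  | 0, 0 => 1
  | 0, _ + 1 => 0
  | _ + 1, 0 => 0
  | m + 1, i + 1 => m.choose i

/-- the admissible indices of weight `k` and depth at most `r` with an argument at least `k - W` -/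
def Family (W r k : ℕ) : Set (List ℕ) :=
  {w | (Admissible w ∧ w.sum = k ∧ ∃ t ∈ w, k ≤ t + W) ∧ w.length ≤ r}

/-- the `ℚ`-space spanned by the relations `∑ c_w ζ(w) = 0`, `w` in `Family W r k`, with integers
`c_w` of absolute value at most `H` -/
noncomputable def relationSpace (W r k : ℕ) (H : ℝ) : Submodule ℚ (List ℕ →₀ ℚ) :=
  Submodule.span ℚ {c | (∀ w ∈ c.support, w ∈ Family W r k) ∧
    (∀ w, ∃ z : ℤ, c w = z ∧ |(z : ℝ)| ≤ H) ∧ c.sum (fun w x => (x : ℝ) * mzv w) = 0}

/-- for all `κ` there is `K` such that for all `C > 1`, all sufficiently large `N` and all but at most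
`K` of the `k ∈ [N, κ N]` the number of the indices in `Family W r k` minus the dimension of the
space spanned by their relations with coefficients at most `C ^ k` is `D` -/
def AlmostRank (W r : ℕ) (D : ℤ) : Prop :=
  ∀ κ : ℕ, ∃ K : ℕ, ∀ c : ℝ, 1 < c → ∃ N0 : ℕ, ∀ N : ℕ, N0 ≤ N →
    {k : ℕ | (N ≤ k ∧ k ≤ κ * N) ∧ ((Family W r k).ncard : ℤ) -
      Module.finrank ℚ (relationSpace W r k (c ^ k)) ≠ D}.ncard ≤ K

/-- `∑ comp(m, i) B(n, ρ - i)` over `n + m ≤ W`, `i ≤ ρ` -/
def formula (W ρ : ℕ) (B : ℕ → ℕ → ℤ) : ℤ :=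
  ∑ n ∈ Finset.range (W + 1), ∑ m ∈ Finset.range (W - n + 1), ∑ i ∈ Finset.range (ρ + 1),
    (comp m i : ℤ) * B n (ρ - i)

open Finset
open Pool.Agent.X90.DB (Ad)

theorem trunc_eq : ∀ l m, trunc l m = Pool.Agent.Y760.ZG.hr l m := by
  intro l
  induction l with
  | nil => intro m; rw [trunc, Pool.Agent.Y760.ZG.hr]
  | cons s l ih =>
    intro m
    rw [trunc, Pool.Agent.Y760.ZG.hr]
    exact Finset.sum_congr rfl fun j _ => by rw [ih]

theorem mzv_eq : ∀ l, mzv l = Pool.Agent.Y760.ZG.mz l := by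
  intro l
  cases l with
  | nil => rw [mzv, Pool.Agent.Y760.ZG.mz]
  | cons s l =>
    rw [mzv, Pool.Agent.Y760.ZG.mz]
    exact tsum_congr fun k => by rw [trunc_eq]

theorem adm_iff : ∀ u, Admissible u ↔ (u = [] ∨ Ad u) := by
  intro u
  cases u with
  | nil => exact ⟨fun _ => Or.inl rfl, fun _ => trivial⟩
  | cons a l => exact ⟨fun h => Or.inr h, fun h => h.resolve_left (List.cons_ne_nil _ _)⟩

theorem Fil_eq (r k : ℕ) : Fil r k = Pool.Agent.X90.DG.DZ k r := by
  rw [Fil, Pool.Agent.X90.DG.DZ]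
  have h1 : mzv = Pool.Agent.Y760.ZG.mz := funext mzv_eq
  have h2 : {p : List ℕ | (Admissible p ∧ p.sum = k) ∧ p.length ≤ r} =
      {p | ((p = [] ∨ Ad p) ∧ p.sum = k) ∧ p.length ≤ r} := by
    ext p
    rw [Set.mem_ofPred_eq, Set.mem_ofPred_eq, adm_iff]
  rw [h1, h2]

theorem comp_eq : ∀ m i, comp m i = Pool.Agent.X90.DG.comps m i
  | 0, 0 => rfl
  | 0, _ + 1 => rfl
  | _ + 1, 0 => rfl
  | _ + 1, _ + 1 => rfl

theorem fam_eq (W ρ k : ℕ) (w : List ℕ) : w ∈ Family W (ρ + 1) k ↔
    (Pool.Agent.X90.DE.Fam W k w ∧ w.length ≤ ρ + 1) := by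
  rw [Family, Set.mem_ofPred_eq, adm_iff, Pool.Agent.X90.DE.Fam]

theorem rel_eq (W ρ k : ℕ) (H : ℝ) :
    relationSpace W (ρ + 1) k H = Pool.Agent.X90.DG.relS W ρ k H := by
  rw [relationSpace, Pool.Agent.X90.DG.relS]
  simp only [mzv_eq, fam_eq]

theorem card_family {W ρ k : ℕ} (hk : 2 * W + 2 < k) : ((Family W (ρ + 1) k).ncard : ℤ) =
    (Pool.Agent.X90.DG.IFr W ρ).card := by
  classical
  obtain ⟨s, rfl⟩ : ∃ s, k = s + W := ⟨k - W, by omega⟩
  have h1 : Family W (ρ + 1) (s + W) = ((univ.image fun i : ↥(Pool.Agent.X90.DG.IFr W ρ) =>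
      Pool.Agent.X90.DE.wd W s i.1 : Finset (List ℕ)) : Set (List ℕ)) := by
    ext w
    rw [fam_eq, Pool.Agent.X90.DG.fam_iff4 (by omega), mem_coe, mem_image]
    exact ⟨fun ⟨i, hi⟩ => ⟨i, mem_univ _, hi.symm⟩, fun ⟨i, _, hi⟩ => ⟨i, hi.symm⟩⟩
  rw [h1, Set.ncard_coe_finset,
    card_image_of_injective _ (Pool.Agent.X90.DG.wd_inj (by omega : W < s)), card_univ,
    Fintype.card_coe]

theorem almost (W ρ : ℕ) : AlmostRank W (ρ + 1)
    (formula W ρ fun n l => Module.finrank ℚ (Fil l n)) := by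
  classical
  intro κ
  obtain ⟨K, hK⟩ := Pool.Agent.X90.DG.main W ρ κ
  refine ⟨K, fun C hC => ?_⟩
  obtain ⟨N0, hN0⟩ := hK C hC
  refine ⟨N0 + 2 * W + 3, fun N hN => ?_⟩
  have hfin : {k : ℕ | (N ≤ k ∧ k ≤ κ * N) ∧ ((Family W (ρ + 1) k).ncard : ℤ) -
      Module.finrank ℚ (relationSpace W (ρ + 1) k (C ^ k)) ≠
      formula W ρ fun n l => Module.finrank ℚ (Fil l n)}.Finite := by
    refine (Finset.Icc N (κ * N)).finite_toSet.subset ?_
    rintro s ⟨hs, -⟩
    exact Finset.mem_coe.2 (Finset.mem_Icc.2 hs)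
  rw [Set.ncard_eq_toFinset_card _ hfin]
  refine hN0 N (by omega) hfin.toFinset fun k hk => ?_
  rw [Set.Finite.mem_toFinset] at hk
  obtain ⟨hk1, hk2⟩ := hk
  refine ⟨hk1, fun h => hk2 ?_⟩
  rw [card_family (by omega), rel_eq, Pool.Agent.X90.DG.card_IFr,
    Pool.Agent.X90.DG.sum_XFr W ρ Pool.Agent.X90.DG.nl, ← h, formula]
  push_cast
  rw [add_sub_cancel_left]
  refine sum_congr rfl fun n _ => sum_congr rfl fun m _ => sum_congr rfl fun i _ => ?_
  rw [comp_eq, Fil_eq]

theorem almost_unique {V r : ℕ} {D D' : ℤ} (h : AlmostRank V r D) (h' : AlmostRank V r D') :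
    D = D' := by
  by_contra hne
  obtain ⟨K, hK⟩ := h 2
  obtain ⟨K', hK'⟩ := h' 2
  obtain ⟨N0, hN0⟩ := hK 2 one_lt_two
  obtain ⟨N0', hN0'⟩ := hK' 2 one_lt_two
  set N := N0 + N0' + K + K' with hN
  have h1 := hN0 N (by omega)
  have h2 := hN0' N (by omega)
  set F : ℕ → ℤ := fun k => ((Family V r k).ncard : ℤ) -
    Module.finrank ℚ (relationSpace V r k (2 ^ k)) with hF
  have h3 : ((Finset.Icc N (2 * N) : Finset ℕ) : Set ℕ) ⊆
      {k : ℕ | (N ≤ k ∧ k ≤ 2 * N) ∧ F k ≠ D} ∪ {k : ℕ | (N ≤ k ∧ k ≤ 2 * N) ∧ F k ≠ D'} := by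
    intro k hk
    have hk' := Finset.mem_Icc.1 (Finset.mem_coe.1 hk)
    by_cases h4 : F k = D
    · exact Or.inr ⟨hk', fun h5 => hne (h4.symm.trans h5)⟩
    · exact Or.inl ⟨hk', h4⟩
  have hfin : ∀ D : ℤ, {k : ℕ | (N ≤ k ∧ k ≤ 2 * N) ∧ F k ≠ D}.Finite := by
    intro D
    refine (Finset.Icc N (2 * N)).finite_toSet.subset ?_
    rintro s ⟨hs, -⟩
    exact Finset.mem_coe.2 (Finset.mem_Icc.2 hs)
  have h4 := (Set.ncard_le_ncard h3 ((hfin D).union (hfin D'))).trans (Set.ncard_union_le _ _)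
  rw [Set.ncard_coe_finset, Nat.card_Icc] at h4
  have h5 : {k : ℕ | (N ≤ k ∧ k ≤ 2 * N) ∧ F k ≠ D}.ncard ≤ K := h1
  have h6 : {k : ℕ | (N ≤ k ∧ k ≤ 2 * N) ∧ F k ≠ D'}.ncard ≤ K' := h2
  omega

theorem formula_top (n ρ : ℕ) (B : ℕ → ℕ → ℤ) : formula n ρ B =
    ∑ a ∈ range n, ∑ m ∈ range (n - a + 1), ∑ i ∈ range (ρ + 1), (comp m i : ℤ) * B a (ρ - i) +
      B n ρ := by
  rw [formula, sum_range_succ, Nat.sub_self, zero_add, sum_range_one]
  congr 1
  rw [sum_range_succ', sum_eq_zero fun i _ => by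
    show ((0 : ℕ) : ℤ) * B n (ρ - (i + 1)) = 0
    simp]
  show 0 + ((1 : ℕ) : ℤ) * B n (ρ - 0) = B n ρ
  simp

theorem dims_iff (W : ℕ) (B : ℕ → ℕ → ℤ) :
    (∀ n ≤ W, ∀ l, (Module.finrank ℚ (Fil l n) : ℤ) = B n l) ↔
      ∀ V ≤ W, ∀ ρ, AlmostRank V (ρ + 1) (formula V ρ B) := by
  constructor
  · intro h V hV ρ
    have h1 := almost V ρ
    have h2 : formula V ρ (fun n l => Module.finrank ℚ (Fil l n)) = formula V ρ B := by
      rw [formula, formula]
      refine sum_congr rfl fun n hn => sum_congr rfl fun m _ => sum_congr rfl fun i _ => ?_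
      rw [mem_range] at hn
      rw [h n (by omega)]
    rwa [h2] at h1
  · intro h n
    induction n using Nat.strong_induction_on with
    | _ n ih =>
      intro hn ρ
      have h1 := almost_unique (almost n ρ) (h n hn ρ)
      rw [formula_top, formula_top] at h1
      have h2 : ∑ a ∈ range n, ∑ m ∈ range (n - a + 1), ∑ i ∈ range (ρ + 1),
          (comp m i : ℤ) * (Module.finrank ℚ (Fil (ρ - i) a) : ℤ) =
          ∑ a ∈ range n, ∑ m ∈ range (n - a + 1), ∑ i ∈ range (ρ + 1),
          (comp m i : ℤ) * B a (ρ - i) := by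
        refine sum_congr rfl fun a ha => sum_congr rfl fun m _ => sum_congr rfl fun i _ => ?_
        rw [mem_range] at ha
        rw [ih a ha (by omega)]
      rw [h2, add_right_inj] at h1
      exact h1

theorem bk_iff : BroadhurstKreimer ↔ ∀ n l, (Module.finrank ℚ (Fil l n) : ℤ) =
    ∑ j ∈ range (l + 1), PowerSeries.coeff n (PowerSeries.coeff j bkSeries) := by
  constructor
  · intro h n l
    induction l with
    | zero =>
      rw [zero_add, sum_range_one, ← h n 0]
      rfl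
    | succ l ih =>
      rw [sum_range_succ, ← ih, ← h n (l + 1), grDim]
      ring
  · intro h k r
    cases r with
    | zero =>
      have := h k 0
      rw [zero_add, sum_range_one] at this
      exact this
    | succ r =>
      rw [grDim, h k (r + 1), h k r, sum_range_succ _ (r + 1)]
      ring

/-- **The depth-graded count.** (1) the rank of the family of the multiple zeta values of weight `k`
and depth at most `ρ + 1` with an argument at least `k - W`, for almost all `k`; (2) any formula for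
the dimensions of `Fil_l(Z_n)`, `n ≤ W`, is equivalent to the corresponding formula for the ranks;
(3) the Broadhurst-Kreimer conjecture is equivalent to a formula for the ranks. -/
theorem result :
    (∀ W ρ : ℕ, AlmostRank W (ρ + 1) (formula W ρ fun n l => Module.finrank ℚ (Fil l n))) ∧
    (∀ (W : ℕ) (B : ℕ → ℕ → ℤ), (∀ n ≤ W, ∀ l, (Module.finrank ℚ (Fil l n) : ℤ) = B n l) ↔
      ∀ V ≤ W, ∀ ρ, AlmostRank V (ρ + 1) (formula V ρ B)) ∧
    (BroadhurstKreimer ↔ ∀ W ρ : ℕ, AlmostRank W (ρ + 1) (formula W ρ fun n l =>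
      ∑ j ∈ Finset.range (l + 1), PowerSeries.coeff n (PowerSeries.coeff j bkSeries))) := by
  refine ⟨almost, dims_iff, ?_⟩
  rw [bk_iff]
  constructor
  · intro h W ρ
    exact (dims_iff W _).1 (fun n _ l => h n l) W le_rfl ρ
  · intro h n l
    exact (dims_iff n _).2 (fun V _ ρ => h V ρ) n le_rfl l

end Pool.Agent.Results.MP_cbe134_nt.DepthCount
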