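import Pool.Agent.X27.MZ.Amp
import Pool.Agent.X27.MZ.BK

/-!
# The Broadhurst-Kreimer conjecture: one weight controls the smaller ones

For a weight `k` let `BK_k` be the formula of Broadhurst and Kreimer for all depths in weight `k`, and `BK^m_k` the same
formula for motivic multiple zeta values (an algebraic statement).

Theorem.
* `BK_k` holds if and only if `BK^m_k` and the conjecture of Hoffman and Zagier (`dim Z_k = d_k`) hold in weight `k`.
* If `BK_n` holds then for all `m ≤ n - 2` the depth-graded dimensions of the real and of the motivic multiple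
  zeta values of weight `m` agree, and `BK_m` is equivalent to `BK^m_m`.
* So the conjecture (all weights) is equivalent to: `BK^m_k` for all `k`, and `BK_k` for infinitely many `k`. Or:
  `BK^m_k` for all `k` and `limsup dim Z_k / d_k = 1`.
* If `BK_m` fails although `BK^m_m` holds then `BK_n` fails for all `n ≥ m + 2`, and `dim Z_n ≤ (1 - 2^{-m}) d_n`.

Input: the theorem of Brown (2012), the structure `Motivic`. As in `MP_301213_nt.PositiveProportion` an element `ξ ≠ 0`
of weight `m` with period `0` kills `ξ H_k`. New here: the series of Broadhurst and Kreimer at `Y = 1` is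
`∑ d_k X^k` (as a sum over all depths, which is finite in each weight), and the comparison of the depth filtrations.
-/

set_option autoImplicit false

open Filter Topology

namespace Pool.Agent.Results.MP_cbe134_nt.InfinitelyManyWeights

open Pool.Agent.X27.MZ (Words d)

/-- The multiple zeta value of an index (the first entry belongs to the largest variable). -/
noncomputable def zeta (s : List ℕ) : ℝ :=
  ∑' m : {m : Fin s.length → ℕ // StrictAnti m ∧ ∀ i, 0 < m i},
    ∏ i, ((m.1 i : ℝ) ^ (s.get i))⁻¹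

/-- All entries are positive, and the first one is at least `2`. -/
def Admissible (s : List ℕ) : Prop := (∀ a ∈ s, 1 ≤ a) ∧ ∀ a ∈ s.head?, 2 ≤ a

/-- The span of the multiple zeta values of weight `k`. -/
noncomputable def Z (k : ℕ) : Submodule ℚ ℝ :=
  Submodule.span ℚ {x : ℝ | ∃ s : List ℕ, Admissible s ∧ s.sum = k ∧ x = zeta s}

/-- The span of the multiple zeta values of weight `k` and depth less than `r`. -/
noncomputable def F (r k : ℕ) : Submodule ℚ ℝ :=
  Submodule.span ℚ {x : ℝ | ∃ s : List ℕ, Admissible s ∧ s.sum = k ∧ s.length < r ∧ x = zeta s}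

/-- The dimension of the part of weight `k` and depth `r` of the depth-graded space. -/
noncomputable def gr (r k : ℕ) : ℕ :=
  Module.finrank ℚ (F (r + 1) k ⧸ (F r k).submoduleOf (F (r + 1) k))

/-- The series of Broadhurst and Kreimer, a power series in `Y` whose coefficients are power series in `X`:
`(1 + E(X) Y) / (1 - O(X) Y + S(X) Y² - S(X) Y⁴)`. -/
noncomputable def series : PowerSeries (PowerSeries ℚ) :=
  let X : PowerSeries ℚ := PowerSeries.X
  let E : PowerSeries ℚ := X ^ 2 * (1 - X ^ 2)⁻¹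
  let O : PowerSeries ℚ := X ^ 3 * (1 - X ^ 2)⁻¹
  let S : PowerSeries ℚ := X ^ 12 * ((1 - X ^ 4) * (1 - X ^ 6))⁻¹
  let Y : PowerSeries (PowerSeries ℚ) := PowerSeries.X
  (1 + PowerSeries.C E * Y) *
    PowerSeries.invOfUnit
      (1 - PowerSeries.C O * Y + PowerSeries.C S * Y ^ 2 - PowerSeries.C S * Y ^ 4) 1

/-- The formula of Broadhurst and Kreimer in weight `k` (all depths). -/
def BKAt (k : ℕ) : Prop :=
  ∀ r : ℕ, (gr r k : ℚ) = PowerSeries.coeff k (PowerSeries.coeff r series)

/-- The motivic multiple zeta values, with the properties found by Brown. -/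
structure Motivic where
  /-- the algebra -/
  H : Type
  [ring : CommRing H]
  [dom : IsDomain H]
  [alg : Algebra ℚ H]
  /-- the motivic multiple zeta values -/
  mot : List ℕ → H
  /-- the period map -/
  per : H →ₐ[ℚ] ℝ
  per_mot : ∀ s, Admissible s → per (mot s) = zeta s
  mul_mem : ∀ s t, Admissible s → Admissible t →
    mot s * mot t ∈ Submodule.span ℚ (mot '' {u | Admissible u ∧ u.sum = s.sum + t.sum})
  indep : ∀ k, LinearIndependent ℚ (fun l : Words k => mot l.1)
  span : ∀ s, Admissible s → mot s ∈ Submodule.span ℚ (Set.range fun l : Words s.sum => mot l.1)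

attribute [instance] Motivic.ring Motivic.dom Motivic.alg

namespace Motivic

variable (M : Motivic)

/-- The part of weight `k`. -/
def part (k : ℕ) : Submodule ℚ M.H := Submodule.span ℚ (M.mot '' {s | Admissible s ∧ s.sum = k})

/-- The span of the motivic multiple zeta values of weight `k` and depth less than `r`. -/
def F (r k : ℕ) : Submodule ℚ M.H :=
  Submodule.span ℚ (M.mot '' {s | Admissible s ∧ s.sum = k ∧ s.length < r})

/-- The depth-graded dimensions of the motivic multiple zeta values. -/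
noncomputable def gr (r k : ℕ) : ℕ :=
  Module.finrank ℚ (M.F (r + 1) k ⧸ (M.F r k).submoduleOf (M.F (r + 1) k))

/-- The motivic formula of Broadhurst and Kreimer in weight `k`. -/
def BKAt (k : ℕ) : Prop :=
  ∀ r : ℕ, (M.gr r k : ℚ) = PowerSeries.coeff k (PowerSeries.coeff r series)

end Motivic

theorem admissible_word {k : ℕ} (w : Words k) : Admissible w.1 := by
  constructor
  · intro a ha
    rcases w.2.1 a ha with h | h <;> omega
  · intro a ha
    rcases w.2.1 a (List.mem_of_mem_head? ha) with h | h <;> omega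

theorem length_le {s : List ℕ} (h : ∀ a ∈ s, 1 ≤ a) : s.length ≤ s.sum := by
  induction s with
  | nil => simp
  | cons a t ih =>
    have h1 := h a (by simp)
    have h2 := ih fun b hb => h b (List.mem_cons_of_mem _ hb)
    simp only [List.length_cons, List.sum_cons]
    omega

/-- the dimension of a graded piece -/
theorem finrank_gr {W : Type*} [AddCommGroup W] [Module ℚ W] {P Q : Submodule ℚ W} (h : P ≤ Q)
    [FiniteDimensional ℚ Q] :
    Module.finrank ℚ (Q ⧸ P.submoduleOf Q) + Module.finrank ℚ P = Module.finrank ℚ Q := by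
  have h1 := (P.submoduleOf Q).finrank_quotient_add_finrank
  rw [(Submodule.submoduleOfEquivOfLe h).finrank_eq] at h1
  exact h1

theorem F_mono (k : ℕ) : Monotone fun r => F r k := by
  intro r r' h
  refine Submodule.span_mono ?_
  rintro x ⟨s, h1, h2, h3, h4⟩
  exact ⟨s, h1, h2, lt_of_lt_of_le h3 h, h4⟩

theorem F_zero (k : ℕ) : F 0 k = ⊥ := by
  unfold F
  rw [Submodule.span_eq_bot]
  rintro x ⟨s, -, -, h, -⟩
  exact absurd h (Nat.not_lt_zero _)

theorem F_top {r k : ℕ} (h : k < r) : F r k = Z k := by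
  unfold F Z
  congr 1
  ext x
  constructor
  · rintro ⟨s, h1, h2, -, h4⟩
    exact ⟨s, h1, h2, h4⟩
  · rintro ⟨s, h1, h2, h4⟩
    refine ⟨s, h1, h2, ?_, h4⟩
    have := length_le h1.1
    omega

namespace Motivic

variable (M : Motivic)

theorem part_eq (k : ℕ) : M.part k = Submodule.span ℚ (Set.range fun l : Words k => M.mot l.1) := by
  apply le_antisymm
  · unfold part
    rw [Submodule.span_le]
    rintro _ ⟨s, ⟨hs, rfl⟩, rfl⟩
    exact M.span s hs
  · rw [Submodule.span_le]
    rintro _ ⟨w, rfl⟩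
    exact Submodule.subset_span ⟨w.1, ⟨admissible_word w, w.2.2⟩, rfl⟩

instance (k : ℕ) : FiniteDimensional ℚ (M.part k) := by
  rw [M.part_eq]
  exact FiniteDimensional.span_of_finite ℚ (Set.finite_range _)

theorem finrank_part (k : ℕ) : Module.finrank ℚ (M.part k) = d k := by
  have : Fintype (Words k) := Fintype.ofFinite _
  rw [part_eq, finrank_span_eq_card (M.indep k), d, Nat.card_eq_fintype_card]

theorem mul_mem_part (j k : ℕ) (x y : M.H) (hx : x ∈ M.part j) (hy : y ∈ M.part k) :
    x * y ∈ M.part (j + k) := by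
  have h1 : M.part j * M.part k ≤ M.part (j + k) := by
    unfold part
    rw [Submodule.span_mul_span, Submodule.span_le]
    rintro _ ⟨_, ⟨s, ⟨hs, rfl⟩, rfl⟩, _, ⟨t, ⟨ht, rfl⟩, rfl⟩, rfl⟩
    exact M.mul_mem s t hs ht
  exact h1 (Submodule.mul_mem_mul hx hy)

theorem F_le (r k : ℕ) : M.F r k ≤ M.part k := by
  refine Submodule.span_mono (Set.image_mono ?_)
  rintro s ⟨h1, h2, -⟩
  exact ⟨h1, h2⟩

instance (r k : ℕ) : FiniteDimensional ℚ (M.F r k) := Submodule.finiteDimensional_of_le (M.F_le r k)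

theorem F_mono (k : ℕ) : Monotone fun r => M.F r k := by
  intro r r' h
  refine Submodule.span_mono (Set.image_mono ?_)
  rintro s ⟨h1, h2, h3⟩
  exact ⟨h1, h2, lt_of_lt_of_le h3 h⟩

theorem map_part (k : ℕ) : (M.part k).map M.per.toLinearMap = Z k := by
  unfold part Z
  rw [Submodule.map_span]
  congr 1
  ext x
  constructor
  · rintro ⟨_, ⟨s, ⟨h1, h2⟩, rfl⟩, rfl⟩
    exact ⟨s, h1, h2, M.per_mot s h1⟩
  · rintro ⟨s, h1, h2, rfl⟩
    exact ⟨_, ⟨s, ⟨h1, h2⟩, rfl⟩, M.per_mot s h1⟩

theorem map_F (r k : ℕ) : (M.F r k).map M.per.toLinearMap = Results.MP_cbe134_nt.InfinitelyManyWeights.F r k := by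
  unfold F Results.MP_cbe134_nt.InfinitelyManyWeights.F
  rw [Submodule.map_span]
  congr 1
  ext x
  constructor
  · rintro ⟨_, ⟨s, ⟨h1, h2, h3⟩, rfl⟩, rfl⟩
    exact ⟨s, h1, h2, h3, M.per_mot s h1⟩
  · rintro ⟨s, h1, h2, h3, rfl⟩
    exact ⟨_, ⟨s, ⟨h1, h2, h3⟩, rfl⟩, M.per_mot s h1⟩

include M in
theorem finite_F (r k : ℕ) : FiniteDimensional ℚ (Results.MP_cbe134_nt.InfinitelyManyWeights.F r k) := by
  rw [← M.map_F]
  infer_instance

theorem finrank_F {k : ℕ} (h : Module.finrank ℚ (Z k) = d k) (r : ℕ) :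
    Module.finrank ℚ (Results.MP_cbe134_nt.InfinitelyManyWeights.F r k) = Module.finrank ℚ (M.F r k) := by
  rw [← M.map_F, Pool.Agent.X27.MZ.finrank_map_eq_iff]
  rw [← M.map_part, ← M.finrank_part, Pool.Agent.X27.MZ.finrank_map_eq_iff] at h
  exact fun x hx => h x (M.F_le r k hx)

/-- If the dimension in weight `k` is full then the depth-graded dimensions are the motivic ones. -/
theorem gr_eq {k : ℕ} (h : Module.finrank ℚ (Z k) = d k) (r : ℕ) :
    Results.MP_cbe134_nt.InfinitelyManyWeights.gr r k = M.gr r k := by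
  have := M.finite_F (r + 1) k
  have h1 := finrank_gr (Results.MP_cbe134_nt.InfinitelyManyWeights.F_mono k (Nat.le_succ r))
  have h2 := finrank_gr (M.F_mono k (Nat.le_succ r))
  have h3 := M.finrank_F h r
  have h4 := M.finrank_F h (r + 1)
  simp only [Nat.succ_eq_add_one] at h1 h2
  unfold Results.MP_cbe134_nt.InfinitelyManyWeights.gr gr
  omega

include M in
theorem sum_gr (k R : ℕ) : ∑ r ∈ Finset.range R, Results.MP_cbe134_nt.InfinitelyManyWeights.gr r k =
    Module.finrank ℚ (Results.MP_cbe134_nt.InfinitelyManyWeights.F R k) := by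
  induction R with
  | zero => rw [F_zero]; simp
  | succ R ih =>
    have := M.finite_F (R + 1) k
    have h1 := finrank_gr (Results.MP_cbe134_nt.InfinitelyManyWeights.F_mono k (Nat.le_succ R))
    simp only [Nat.succ_eq_add_one] at h1
    rw [Finset.sum_range_succ, ih]
    unfold Results.MP_cbe134_nt.InfinitelyManyWeights.gr
    omega

include M in
/-- The formula in weight `k` gives the full dimension. -/
theorem full_of_BK {k : ℕ} (h : Results.MP_cbe134_nt.InfinitelyManyWeights.BKAt k) :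
    Module.finrank ℚ (Z k) = d k := by
  have h1 := M.sum_gr k (k + 1)
  rw [F_top (Nat.lt_succ_self k)] at h1
  have h2 := Pool.Agent.X27.MZ.t_eq_d k
  have h3 : (∑ r ∈ Finset.range (k + 1),
      (Results.MP_cbe134_nt.InfinitelyManyWeights.gr r k : ℚ)) = Pool.Agent.X27.MZ.t k :=
    Finset.sum_congr rfl fun r _ => h r
  rw [h2] at h3
  have h4 : ((∑ r ∈ Finset.range (k + 1), Results.MP_cbe134_nt.InfinitelyManyWeights.gr r k : ℕ) : ℚ) =
      d k := by
    push_cast
    exact h3
  rw [h1] at h4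
  exact_mod_cast h4

theorem BK_iff (k : ℕ) : Results.MP_cbe134_nt.InfinitelyManyWeights.BKAt k ↔
    M.BKAt k ∧ Module.finrank ℚ (Z k) = d k := by
  constructor
  · intro h
    have h1 := M.full_of_BK h
    exact ⟨fun r => by rw [← M.gr_eq h1 r]; exact h r, h1⟩
  · rintro ⟨h, h1⟩ r
    rw [M.gr_eq h1 r]
    exact h r

include M in
theorem amp {m : ℕ} (hm : Module.finrank ℚ (Z m) ≠ d m) (k : ℕ) :
    Module.finrank ℚ (Z (m + k)) + d k ≤ d (m + k) := by
  have h1 : ¬ ∀ x ∈ M.part m, M.per x = 0 → x = 0 := by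
    rw [← Pool.Agent.X27.MZ.finrank_map_eq_iff, M.map_part, M.finrank_part]
    exact hm
  push Not at h1
  obtain ⟨ξ, hξ, h2, h3⟩ := h1
  have h4 := Pool.Agent.X27.MZ.amplify M.per M.part M.mul_mem_part hξ h3 h2 k
  rwa [M.map_part, M.finrank_part, M.finrank_part] at h4

end Motivic

/-- **The Broadhurst-Kreimer conjecture: one weight controls the smaller ones.** -/
theorem result (M : Motivic) :
    (∀ k, BKAt k ↔ M.BKAt k ∧ Module.finrank ℚ (Z k) = d k) ∧
    (∀ m n, BKAt n → m + 2 ≤ n → (∀ r, gr r m = M.gr r m) ∧ (BKAt m ↔ M.BKAt m)) ∧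
    (∀ m n, M.BKAt m → ¬ BKAt m → m + 2 ≤ n →
      ¬ BKAt n ∧ (Module.finrank ℚ (Z n) : ℝ) ≤ (1 - 1 / 2 ^ m) * d n) ∧
    [∀ k, BKAt k,
      (∀ k, M.BKAt k) ∧ ∀ n, ∃ k, n ≤ k ∧ BKAt k,
      (∀ k, M.BKAt k) ∧ ∀ ε : ℝ, 0 < ε → ∀ n, ∃ k, n ≤ k ∧
        (1 - ε) * d k ≤ (Module.finrank ℚ (Z k) : ℝ)].TFAE := by
  have key : ∀ m n, Module.finrank ℚ (Z m) ≠ d m → m + 2 ≤ n →
      Module.finrank ℚ (Z n) ≠ d n ∧ (Module.finrank ℚ (Z n) : ℝ) ≤ (1 - 1 / 2 ^ m) * d n := by
    intro m n hm hn
    obtain ⟨k, rfl⟩ : ∃ k, n = m + k := ⟨n - m, by omega⟩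
    have hk : 2 ≤ k := by omega
    have h1 := M.amp hm k
    have h2 := Pool.Agent.X27.MZ.d_add_le m hk
    have h3 := Pool.Agent.X27.MZ.d_pos (k := k) (by omega)
    constructor
    · omega
    · have h4 : (Module.finrank ℚ (Z (m + k)) : ℝ) + d k ≤ d (m + k) := by exact_mod_cast h1
      have h5 : (d (m + k) : ℝ) ≤ 2 ^ m * d k := by exact_mod_cast h2
      have h6 : 1 / 2 ^ m * (d (m + k) : ℝ) ≤ d k := by
        rw [one_div, inv_mul_le_iff₀ (by positivity)]
        exact h5
      linarith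
  refine ⟨M.BK_iff, ?_, ?_, ?_⟩
  · intro m n hn hmn
    have h1 : Module.finrank ℚ (Z m) = d m := by
      by_contra h
      exact (key m n h hmn).1 (M.full_of_BK hn)
    exact ⟨M.gr_eq h1, by rw [M.BK_iff m]; exact ⟨fun h => h.1, fun h => ⟨h, h1⟩⟩⟩
  · intro m n h1 h2 hmn
    have h3 : Module.finrank ℚ (Z m) ≠ d m := fun h => h2 ((M.BK_iff m).2 ⟨h1, h⟩)
    have h4 := key m n h3 hmn
    exact ⟨fun h => h4.1 (M.full_of_BK h), h4.2⟩
  · tfae_have 1 → 2 := fun h => ⟨fun k => ((M.BK_iff k).1 (h k)).1, fun n => ⟨n, le_rfl, h n⟩⟩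
    tfae_have 2 → 3 := by
      rintro ⟨h1, h2⟩
      refine ⟨h1, fun ε hε n => ?_⟩
      obtain ⟨k, hk, h3⟩ := h2 n
      refine ⟨k, hk, ?_⟩
      rw [M.full_of_BK h3]
      have : (0 : ℝ) ≤ d k := Nat.cast_nonneg _
      nlinarith
    tfae_have 3 → 1 := by
      rintro ⟨h1, h2⟩ m
      rw [M.BK_iff m]
      refine ⟨h1 m, ?_⟩
      by_contra hm
      obtain ⟨k, hk, h3⟩ := h2 (1 / 2 ^ (m + 1)) (by positivity) (m + 2)
      have h4 := (key m k hm hk).2
      have h5 : (0 : ℝ) < d k := by
        exact_mod_cast Pool.Agent.X27.MZ.d_pos (k := k) (by omega)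
      have h6 : (1 : ℝ) / 2 ^ (m + 1) < 1 / 2 ^ m := by
        apply one_div_lt_one_div_of_lt (by positivity)
        exact pow_lt_pow_right₀ (by norm_num) (by omega)
      nlinarith
    tfae_finish

end Pool.Agent.Results.MP_cbe134_nt.InfinitelyManyWeights
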