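import Pool.Agent.Results.MP_cbe134_nt.DepthCount
import Pool.Agent.X174.WinDim

/-!
# The Broadhurst-Kreimer conjecture and the rank of the multiple zeta values with one large argument, for ALL weights in
windows around thin sequences

Consider the multiple zeta values of weight `k` and depth at most `r` with an argument at least `k - W`. `InWindows W r D` is
the statement: for every sequence `v ≥ 1` of exponent of convergence at most `τ` (for `v_i = (i + 1) ^ a` this is `1 / a`,
for `v_i = b ^ i` it is `0`) and every `ρ < 1` there is a set `E ⊂ ℝ` of Hausdorff dimension at most `τ / (1 - ρ)` such that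
for each `α > 0` outside `E` and each `c > 1`, for all but finitely many `i`: for ALL `k` with `|k - α v_i| ≤ v_i ^ ρ` the
number of these values minus the dimension of the space spanned by their relations with integer coefficients of absolute
value at most `c ^ k` is `D`.

(1) `InWindows W (ρ + 1) (formula W ρ (dim Fil_l(Z_n)))` holds for all `W`, `ρ`. (2) Any formula for the dimensions of
`Fil_l(Z_n)`, `n ≤ W`, is equivalent to the corresponding formula for the ranks in windows. (3) The Broadhurst-Kreimer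
conjecture is equivalent to a formula for the ranks in windows.

The starting point is our result `DepthCount`.
-/

set_option autoImplicit false

namespace Pool.Agent.Results.MP_cbe134_nt.WeightsInWindows

open DepthCount (mzv Admissible Fil grDim bkSeries BroadhurstKreimer comp Family relationSpace AlmostRank formula)

/-- the exponent of convergence of the sequence `v` is at most `τ` -/
def ExpLe (v : ℕ → ℝ) (τ : ℝ) : Prop := ∀ t : ℝ, τ < t → Summable (fun n : ℕ => (v n) ^ (-t))

/-- for all sequences `v ≥ 1` of exponent of convergence at most `τ` and all `ρ < 1` there is a set `E ⊂ ℝ` of Hausdorff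
dimension at most `τ / (1 - ρ)` such that for all `α > 0` outside `E` and all `c > 1`, for all but finitely many `i`, for ALL
`k` with `|k - α v_i| ≤ v_i ^ ρ` the number of the indices in `Family W r k` minus the dimension of the space spanned by
their relations with coefficients at most `c ^ k` is `D` -/
def InWindows (W r : ℕ) (D : ℤ) : Prop :=
  ∀ (v : ℕ → ℝ) (τ ρ : ℝ), (∀ i, 1 ≤ v i) → 0 ≤ τ → ExpLe v τ → ρ < 1 →
    ∃ E : Set ℝ, dimH E ≤ ENNReal.ofReal (τ / (1 - ρ)) ∧ ∀ α : ℝ, 0 < α → α ∉ E → ∀ c : ℝ, 1 < c →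
      ∃ i₀ : ℕ, ∀ i : ℕ, i₀ ≤ i → ∀ k : ℕ, |(k : ℝ) - α * v i| ≤ (v i) ^ ρ →
        ((Family W r k).ncard : ℤ) - Module.finrank ℚ (relationSpace W r k (c ^ k)) = D

theorem entries_pos : ∀ w : List ℕ, Admissible w → ∀ t ∈ w, 1 ≤ t
  | [], _, t, ht => absurd ht List.not_mem_nil
  | s :: l, h, t, ht => by
    rcases List.mem_cons.1 ht with rfl | ht
    · exact le_trans (by norm_num) h.1
    · exact h.2 t ht

theorem mono (W r k : ℕ) {H H' : ℝ} (hH : H ≤ H') :
    Module.finrank ℚ (relationSpace W r k H) ≤ Module.finrank ℚ (relationSpace W r k H') := by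
  refine Pool.Agent.X174.finrank_mono_supported (Pool.Agent.X174.finite_lists k) ?_ ?_
  · refine Submodule.span_mono ?_
    rintro c ⟨h1, h2, h3⟩
    refine ⟨h1, fun w => ?_, h3⟩
    obtain ⟨z, hz1, hz2⟩ := h2 w
    exact ⟨z, hz1, hz2.trans hH⟩
  · refine Submodule.span_le.2 ?_
    rintro c ⟨h1, -, -⟩
    refine (Finsupp.mem_supported ℚ c).2 fun w hw => ?_
    obtain ⟨⟨h4, h5, -⟩, -⟩ := h1 w hw
    exact ⟨entries_pos w h4, h5.le⟩

theorem conv (W r : ℕ) (D : ℤ) (c₁ c c₂ : ℝ) (k : ℕ) (h1 : 1 < c₁) (h2 : c₁ ≤ c) (h3 : c ≤ c₂)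
    (h4 : ((Family W r k).ncard : ℤ) - Module.finrank ℚ (relationSpace W r k (c₁ ^ k)) = D)
    (h5 : ((Family W r k).ncard : ℤ) - Module.finrank ℚ (relationSpace W r k (c₂ ^ k)) = D) :
    ((Family W r k).ncard : ℤ) - Module.finrank ℚ (relationSpace W r k (c ^ k)) = D := by
  have h6 := mono W r k (pow_le_pow_left₀ (by linarith) h2 k : c₁ ^ k ≤ c ^ k)
  have h7 := mono W r k (pow_le_pow_left₀ (by linarith) h3 k : c ^ k ≤ c₂ ^ k)
  omega

theorem almost_iff (W ρ : ℕ) (D : ℤ) : AlmostRank W (ρ + 1) D ↔ InWindows W (ρ + 1) D :=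
  Pool.Agent.X174.alm_iff_inW
    (rk := fun c k => ((Family W (ρ + 1) k).ncard : ℤ) - Module.finrank ℚ (relationSpace W (ρ + 1) k (c ^ k)))
    (conv W (ρ + 1)) (DepthCount.result.1 W ρ) D

/-- **The depth-graded count, for all weights in windows.** (1) the rank of the family of the multiple zeta values of weight
`k` and depth at most `ρ + 1` with an argument at least `k - W`, for ALL `k` in windows around `α v_i`; (2) any formula for
the dimensions of `Fil_l(Z_n)`, `n ≤ W`, is equivalent to the corresponding formula for the ranks in windows; (3) the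
Broadhurst-Kreimer conjecture is equivalent to a formula for the ranks in windows. The sequences `v_i = (i + 1) ^ a` and
`v_i = b ^ i` have exponent of convergence at most `1 / a` and `0`. -/
theorem result :
    (∀ W ρ : ℕ, InWindows W (ρ + 1) (formula W ρ fun n l => Module.finrank ℚ (Fil l n))) ∧
    (∀ (W : ℕ) (B : ℕ → ℕ → ℤ), (∀ n ≤ W, ∀ l, (Module.finrank ℚ (Fil l n) : ℤ) = B n l) ↔
      ∀ V ≤ W, ∀ ρ, InWindows V (ρ + 1) (formula V ρ B)) ∧
    (BroadhurstKreimer ↔ ∀ W ρ : ℕ, InWindows W (ρ + 1) (formula W ρ fun n l =>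
      ∑ j ∈ Finset.range (l + 1), PowerSeries.coeff n (PowerSeries.coeff j bkSeries))) ∧
    (∀ a : ℝ, 0 < a → ExpLe (fun n : ℕ => ((n : ℝ) + 1) ^ a) (1 / a)) ∧
    (∀ b : ℝ, 1 < b → ExpLe (fun n : ℕ => b ^ n) 0) := by
  obtain ⟨h1, h2, h3⟩ := DepthCount.result
  refine ⟨fun W ρ => (almost_iff _ _ _).1 (h1 W ρ), fun W B => ?_, ?_,
    fun κ hκ => Pool.Agent.Y854.GM.expLe_pow κ hκ, fun b hb => Pool.Agent.Y854.GM.expLe_geom b hb⟩
  · rw [h2 W B]
    exact forall₂_congr fun V _ => forall_congr' fun ρ => almost_iff V ρ _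
  · rw [h3]
    exact forall₂_congr fun W ρ => almost_iff W ρ _

end Pool.Agent.Results.MP_cbe134_nt.WeightsInWindows
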